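import Pool.Agent.Lib.MP_17d4d1_pr.S.H73.FourFinal
import Pool.Agent.Lib.MP_17d4d1_pr.S.H64.En3

set_option autoImplicit false

/-!
# A lower bound for the functional of three functions, valid for all FKG measures

For every FKG probability measure on the subsets of a finite set, all nonnegative nondecreasing
`f`, `g`, `h` and every nondecreasing `t` with values in `[0, 1]`,
`E_3(f, g, h) ≥ E[f g h] - E[f (1 - t)] E[g h] - E[f g t] E[h] - E[g] E[f h] + E[f] E[g] E[h]`.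
In other words `E[f t] E[g h] + E[f g (1 - t)] E[h] ≤ E[f g h]`; the values `t = 0` and `t = 1`
of this inequality are consequences of the FKG inequality. For an up-set `C` and `h = t = 1_C`
the right-hand side of the bound is `μ(Cᶜ) Cov(f, g) - μ(Cᶜ)² Cov(f, g | Cᶜ)`.
-/

namespace Pool.Agent.Results.MP_17d4d1_pr.LowerBound

open Classical Finset Pool.Agent.Lib.MP_17d4d1_pr Pool.Agent.Lib.MP_17d4d1_pr.S

theorem three {X : Type} [Fintype X] (μ : Finset X → ℝ) (hμ1 : ∑ A, μ A = 1)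
    (f : Fin 3 → Finset X → ℝ) :
    ∑ P ∈ (Finset.univ : Finset (Finset (Finset (Fin 3)))).filter
          (fun P => (∀ B ∈ P, B.Nonempty) ∧ ∀ i : Fin 3, ∃! B, B ∈ P ∧ i ∈ B),
        (-1 : ℝ) ^ (P.card + 1) *
          ∏ B ∈ P, (((B.card - 1).factorial : ℝ) * ∑ A, μ A * ∏ i ∈ B, f i A) =
      E3 μ (f 0) (f 1) (f 2) := by
  have h : En μ f univ = E3 μ (f 0) (f 1) (f 2) := by
    have := H64.en3 X (Fin 3) μ f 0 1 2 hμ1 (by decide) (by decide) (by decide)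
    rw [← this]
    congr 1
  rw [← h]
  have hparts : parts (univ : Finset (Fin 3)) =
      (Finset.univ : Finset (Finset (Finset (Fin 3)))).filter
      (fun P => (∀ B ∈ P, B.Nonempty) ∧ ∀ i : Fin 3, ∃! B, B ∈ P ∧ i ∈ B) := by
    ext P
    rw [mem_parts, mem_filter]
    simp
  rw [En, G, hparts, ← sum_neg_distrib]
  refine sum_congr rfl fun P _ => ?_
  simp only [hh, mom]
  rw [prod_neg, pow_succ]
  ring

theorem result (X : Type) [Fintype X]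
    -- an FKG probability measure
    (μ : Finset X → ℝ) (hμ0 : ∀ A, 0 ≤ μ A) (hμ1 : ∑ A, μ A = 1)
    (hμ : ∀ A B, μ A * μ B ≤ μ (A ∩ B) * μ (A ∪ B))
    -- three nonnegative nondecreasing functions
    (f : Fin 3 → Finset X → ℝ) (hf0 : ∀ i A, 0 ≤ f i A) (hf : ∀ i, Monotone (f i))
    -- a nondecreasing function with values in `[0, 1]`
    (t : Finset X → ℝ) (ht0 : ∀ A, 0 ≤ t A) (ht1 : ∀ A, t A ≤ 1) (ht : Monotone t) :
    (∑ A, μ A * (f 0 A * f 1 A * f 2 A))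
        - (∑ A, μ A * (f 0 A * (1 - t A))) * (∑ A, μ A * (f 1 A * f 2 A))
        - (∑ A, μ A * (f 0 A * f 1 A * t A)) * (∑ A, μ A * f 2 A)
        - (∑ A, μ A * f 1 A) * (∑ A, μ A * (f 0 A * f 2 A))
        + (∑ A, μ A * f 0 A) * (∑ A, μ A * f 1 A) * (∑ A, μ A * f 2 A) ≤
      ∑ P ∈ (Finset.univ : Finset (Finset (Finset (Fin 3)))).filter
          (fun P => (∀ B ∈ P, B.Nonempty) ∧ ∀ i : Fin 3, ∃! B, B ∈ P ∧ i ∈ B),
        (-1 : ℝ) ^ (P.card + 1) *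
          ∏ B ∈ P, (((B.card - 1).factorial : ℝ) * ∑ A, μ A * ∏ i ∈ B, f i A) := by
  have hw : FKGW μ := ⟨hμ0, hμ1, hμ⟩
  have h1 := H73.four μ (f 0) (f 1) (f 2) t hw ⟨hf0 0, hf 0⟩ ⟨hf0 1, hf 1⟩ ⟨hf0 2, hf 2⟩
    ht0 ht1 ht
  have h2 : H73.FF μ (f 0) (f 1) (f 2) t = (∑ A, μ A * (f 0 A * f 1 A * f 2 A)) -
      (∑ A, μ A * (f 0 A * t A)) * (∑ A, μ A * (f 1 A * f 2 A)) -
      (∑ A, μ A * (f 0 A * f 1 A * (1 - t A))) * (∑ A, μ A * f 2 A) := rfl
  rw [h2] at h1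
  have b1 : E3 μ (f 0) (f 1) (f 2) = 2 * (∑ A, μ A * (f 0 A * f 1 A * f 2 A)) -
      (∑ A, μ A * (f 0 A * f 1 A)) * (∑ A, μ A * f 2 A) -
      (∑ A, μ A * (f 0 A * f 2 A)) * (∑ A, μ A * f 1 A) -
      (∑ A, μ A * (f 1 A * f 2 A)) * (∑ A, μ A * f 0 A) +
      (∑ A, μ A * f 0 A) * (∑ A, μ A * f 1 A) * (∑ A, μ A * f 2 A) := rfl
  rw [three μ hμ1 f, b1]
  have a1 : (∑ A, μ A * (f 0 A * (1 - t A))) =
      (∑ A, μ A * f 0 A) - (∑ A, μ A * (f 0 A * t A)) := by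
    rw [← sum_sub_distrib]
    exact sum_congr rfl fun A _ => by ring
  have a2 : (∑ A, μ A * (f 0 A * f 1 A * (1 - t A))) =
      (∑ A, μ A * (f 0 A * f 1 A)) - (∑ A, μ A * (f 0 A * f 1 A * t A)) := by
    rw [← sum_sub_distrib]
    exact sum_congr rfl fun A _ => by ring
  rw [a1]
  rw [a2] at h1
  nlinarith [h1]

end Pool.Agent.Results.MP_17d4d1_pr.LowerBound
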