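import Pool.Agent.Lib.MP_17d4d1_pr.S.H73.Good
import Pool.Agent.Lib.MP_17d4d1_pr.C.H73.Ker
import Pool.Agent.Lib.MP_17d4d1_pr.C.H74.Pack
import Pool.Agent.Lib.MP_17d4d1_pr.C.H50.Crit
import Pool.Agent.Lib.MP_17d4d1_pr.C.H93.Puref
import Pool.Agent.Lib.MP_17d4d1_pr.C.H9.Pol
import Pool.Agent.Lib.MP_17d4d1_pr.C.H9.Cls3
import Pool.Agent.Lib.MP_17d4d1_pr.C.H40.Couple
import Pool.Agent.Lib.MP_17d4d1_pr.C.H22.Step
import Pool.Agent.Lib.MP_17d4d1_pr.C.H23.Base
import Pool.Agent.Lib.MP_17d4d1_pr.C.H43.Main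

set_option autoImplicit false

/-!
# The higher-order correlation inequality with two arbitrary functions and one function of three chains

For every FKG probability measure on the subsets of a finite set and every `n` the inequality
`0 ≤ E_n(f_1, …, f_n)` holds if two of the functions are arbitrary, a third one belongs to the
class `Good` below, which contains all nonnegative nondecreasing functions of the traces on three
sets `Y₁`, `Y₂`, `Y₃` on each of which the support of the measure leaves a chain of traces (in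
particular all functions on a product of three totally ordered sets), and the others are sums of
nonnegative nondecreasing log-supermodular functions.
-/

namespace Pool.Agent.Results.MP_17d4d1_pr.ThreeChains

open Classical Finset Pool.Agent.Lib.MP_17d4d1_pr Pool.Agent.Lib.MP_17d4d1_pr.S

/-- The traces on `Y` of the members of `L` form a chain. -/
def Chain {X : Type} (L : Set (Finset X)) (Y : Finset X) : Prop :=
  ∀ A ∈ L, ∀ B ∈ L, A ∩ Y ⊆ B ∩ Y ∨ B ∩ Y ⊆ A ∩ Y

/-- The class of the third functions; `L` is the support of the measure. -/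
inductive Good {X : Type} (L : Set (Finset X)) : (Finset X → ℝ) → Prop
  /-- a nonnegative nondecreasing function of the traces on three sets, each of which has a chain
  of traces -/
  | chains (Y₁ Y₂ Y₃ : Finset X) (u : Finset X → ℝ) : Chain L Y₁ → Chain L Y₂ → Chain L Y₃ →
      (∀ A, 0 ≤ u A) → Monotone u → (∀ A, u (A ∩ (Y₁ ∪ Y₂ ∪ Y₃)) = u A) → Good L u
  /-- the indicator of the sets that contain at least two elements of `Y` -/
  | two (Y : Finset X) : Good L (fun A => if 2 ≤ (A ∩ Y).card then 1 else 0)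
  /-- sums -/
  | add (u v : Finset X → ℝ) : Good L u → Good L v → Good L (fun A => u A + v A)
  /-- products with nonnegative nondecreasing log-supermodular functions -/
  | mul (k u : Finset X → ℝ) : (∀ A, 0 ≤ k A) → Monotone k →
      (∀ A B, k A * k B ≤ k (A ∩ B) * k (A ∪ B)) → Good L u → Good L (fun A => k A * u A)
  /-- the value `c` on the sets that contain `v`, where `c` is an upper bound -/
  | or (v : X) (c : ℝ) (u : Finset X → ℝ) : Good L u → (∀ A, u A ≤ c) →
      Good L (fun A => if v ∈ A then c else u A)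

theorem Good.cls {X : Type} [Fintype X] {L : Set (Finset X)} {u : Finset X → ℝ}
    (hu : Good L u) : C.Cls3 L u := by
  induction hu with
  | chains Y₁ Y₂ Y₃ u h1 h2 h3 h0 hm hd => exact C.Cls3.chains Y₁ Y₂ Y₃ u h1 h2 h3 ⟨h0, hm⟩ hd
  | two Y =>
    have h : thr Y = fun A : Finset X => if 2 ≤ (A ∩ Y).card then (1 : ℝ) else 0 := by
      funext A
      unfold thr
      congr!
    have h2 := C.Cls3.two (L := L) Y
    rw [h] at h2
    exact h2
  | add u v _ _ h1 h2 => exact C.Cls3.add u v h1 h2
  | mul k u h0 hm hl _ h => exact C.Cls3.mul k u h0 hm hl h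
  | or v c u _ hc h =>
    have := C.Cls3.or v c u h hc
    convert this

/-- The modules, put together. -/
theorem main : C.MAIN_S :=
  C.H43.main
    (C.H9.cls3 H73.ustar_all H73.star_all
      (C.H23.base (C.H22.step C.H40.couple)
        (C.H9.pol (C.H93.puref (C.H50.crit (C.H73.ker C.H74.pack))))))
    H64.en3

theorem result (X : Type) [Fintype X] (n : ℕ)
    -- an FKG probability measure
    (μ : Finset X → ℝ) (hμ0 : ∀ A, 0 ≤ μ A) (hμ1 : ∑ A, μ A = 1)
    (hμ : ∀ A B, μ A * μ B ≤ μ (A ∩ B) * μ (A ∪ B))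
    -- nonnegative nondecreasing functions
    (f : Fin n → Finset X → ℝ) (hf0 : ∀ i A, 0 ≤ f i A) (hf : ∀ i, Monotone (f i))
    -- `f a` and `f b` are arbitrary, `f c` belongs to the class, the others are sums of
    -- log-supermodular functions
    (a b c : Fin n) (hc : Good {A | μ A ≠ 0} (f c))
    (hK : ∀ k, k ≠ a → k ≠ b → k ≠ c → f k ∈ AddSubmonoid.closure
      {h : Finset X → ℝ | (∀ A, 0 ≤ h A) ∧ Monotone h ∧
        ∀ A B, h A * h B ≤ h (A ∩ B) * h (A ∪ B)}) :
    0 ≤ ∑ P ∈ (Finset.univ : Finset (Finset (Finset (Fin n)))).filter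
          (fun P => (∀ B ∈ P, B.Nonempty) ∧ ∀ i : Fin n, ∃! B, B ∈ P ∧ i ∈ B),
        (-1 : ℝ) ^ (P.card + 1) *
          ∏ B ∈ P, (((B.card - 1).factorial : ℝ) * ∑ A, μ A * ∏ i ∈ B, f i A) := by
  have hmain : 0 ≤ En μ f univ :=
    main X (Fin n) μ ⟨hμ0, hμ1, hμ⟩ a b c f (fun i => ⟨hf0 i, hf i⟩) hc.cls hK
  have hparts : parts (univ : Finset (Fin n)) = (Finset.univ : Finset (Finset (Finset (Fin n)))).filter
      (fun P => (∀ B ∈ P, B.Nonempty) ∧ ∀ i : Fin n, ∃! B, B ∈ P ∧ i ∈ B) := by
    ext P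
    rw [mem_parts, mem_filter]
    simp
  rw [En, G, hparts, ← sum_neg_distrib] at hmain
  refine hmain.trans (le_of_eq (sum_congr rfl fun P _ => ?_))
  simp only [hh, mom]
  rw [prod_neg, pow_succ]
  ring

end Pool.Agent.Results.MP_17d4d1_pr.ThreeChains
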