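import Pool.Agent.Lib.MP_17d4d1_pr.Reduce

set_option autoImplicit false

/-!
# The higher-order correlation inequality for two comonotone families and log-supermodular functions

The inequality `0 ≤ E_n(f_1, …, f_n)` holds for every FKG probability measure on a finite
distributive lattice and every `n` when the functions are split into two comonotone families and a
third family, whose members are sums of nonnegative nondecreasing log-supermodular functions.
-/

namespace Pool.Agent.Results.MP_17d4d1_pr.TwoFamilies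

open Classical Finset Pool.Agent.Lib.MP_17d4d1_pr

theorem result {α : Type*} [DistribLattice α] [Fintype α] (n : ℕ) (hn : 1 ≤ n)
    -- an FKG probability measure
    (μ : α → ℝ) (hμ0 : ∀ x, 0 ≤ μ x) (hμ1 : ∑ x, μ x = 1)
    (hμ : ∀ x y, μ x * μ y ≤ μ (x ⊓ y) * μ (x ⊔ y))
    -- nonnegative nondecreasing functions
    (f : Fin n → α → ℝ) (hf0 : ∀ i x, 0 ≤ f i x) (hf : ∀ i, Monotone (f i))
    -- three families of indices
    (I J K : Set (Fin n)) (hIJK : ∀ i, i ∈ I ∨ i ∈ J ∨ i ∈ K)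
    (hI : ∀ i ∈ I, ∀ j ∈ I, ∀ x y, 0 ≤ (f i x - f i y) * (f j x - f j y))
    (hJ : ∀ i ∈ J, ∀ j ∈ J, ∀ x y, 0 ≤ (f i x - f i y) * (f j x - f j y))
    (hK : ∀ k ∈ K, f k ∈ AddSubmonoid.closure
      {h : α → ℝ | (∀ x, 0 ≤ h x) ∧ Monotone h ∧ ∀ x y, h x * h y ≤ h (x ⊓ y) * h (x ⊔ y)}) :
    0 ≤ ∑ P ∈ (Finset.univ : Finset (Finset (Finset (Fin n)))).filter
          (fun P => (∀ B ∈ P, B.Nonempty) ∧ ∀ i : Fin n, ∃! B, B ∈ P ∧ i ∈ B),
        (-1 : ℝ) ^ (P.card + 1) *
          ∏ B ∈ P, (((B.card - 1).factorial : ℝ) * ∑ x, μ x * ∏ i ∈ B, f i x) := by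
  have : Nonempty (Fin n) := ⟨⟨0, hn⟩⟩
  have hmain : 0 ≤ En μ f univ :=
    main I J K (fun i hi => by
      rcases hIJK i with h | h | h
      · exact Or.inl h
      · exact Or.inr h
      · exact absurd h hi) hμ0 hμ1 hμ univ f hf0 hf
      (fun i _ hiI j _ hjI => hI i hiI j hjI) (fun i _ hiJ j _ hjJ => hJ i hiJ j hjJ)
      hK (fun i hi => absurd (mem_univ i) hi) (fun i hi => absurd (mem_univ i) hi)
  have hparts : parts (univ : Finset (Fin n)) = (Finset.univ : Finset (Finset (Finset (Fin n)))).filter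
      (fun P => (∀ B ∈ P, B.Nonempty) ∧ ∀ i : Fin n, ∃! B, B ∈ P ∧ i ∈ B) := by
    ext P
    rw [mem_parts, mem_filter]
    simp
  rw [En, G, hparts, ← sum_neg_distrib] at hmain
  refine hmain.trans (le_of_eq (sum_congr rfl fun P _ => ?_))
  simp only [hh, mom]
  rw [prod_neg, pow_succ]
  ring

end Pool.Agent.Results.MP_17d4d1_pr.TwoFamilies
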